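import Pool.Agent.K1H76.DK.Stm

set_option autoImplicit false

/-! Project DK: choice of the parameters. -/

namespace Pool.Agent.K1H98.DK

open Filter Topology Real
open Pool.Agent.K1H76.DK (Lam S_NUM)

theorem ev_w (C ε : ℝ) (hε : 0 < ε) : ∀ᶠ w : ℝ in atTop,
    1 ≤ w ∧ 8 * w ≤ exp w ∧ 4 * log w + 18 + 2 * C ≤ ε * w := by
  have h1 : ∀ᶠ w : ℝ in atTop, 8 * w ≤ exp w := by
    filter_upwards [eventually_ge_atTop (16 : ℝ)] with w hw
    have h := Real.quadratic_le_exp_of_nonneg (by linarith : (0 : ℝ) ≤ w)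
    nlinarith
  have h2 : ∀ᶠ w : ℝ in atTop, 4 * log w + 18 + 2 * C ≤ ε * w := by
    have h3 : ∀ᶠ w : ℝ in atTop, ‖log w‖ ≤ (ε / 8) * ‖w‖ :=
      (Real.isLittleO_log_id_atTop).def (by positivity)
    filter_upwards [h3, eventually_ge_atTop (0 : ℝ), eventually_ge_atTop ((18 + 2 * C) / (ε / 2))]
      with w h4 h5 h6
    rw [Real.norm_eq_abs, Real.norm_eq_abs, abs_of_nonneg h5] at h4
    rw [div_le_iff₀ (by positivity)] at h6
    have := le_abs_self (log w)
    linarith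
  filter_upwards [eventually_ge_atTop (1 : ℝ), h1, h2] with w a b c
  exact ⟨a, b, c⟩

theorem t_NUM : S_NUM := by
  intro C hC ε hε hε1
  have hk : Tendsto (fun k : ℕ => log (log (k : ℝ))) atTop atTop :=
    Real.tendsto_log_atTop.comp (Real.tendsto_log_atTop.comp tendsto_natCast_atTop_atTop)
  obtain ⟨k0, hk0⟩ := eventually_atTop.1 ((hk.eventually (ev_w C ε hε)).and (eventually_ge_atTop 3))
  refine ⟨k0, fun k hkk => ?_⟩
  obtain ⟨⟨h1, h2, h3⟩, h4⟩ := hk0 k hkk
  obtain ⟨L, hL⟩ : ∃ L : ℝ, L = log (k : ℝ) := ⟨_, rfl⟩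
  obtain ⟨w, hw⟩ : ∃ w : ℝ, w = log L := ⟨_, rfl⟩
  rw [← hL, ← hw] at h1 h2 h3
  have hk3 : (3 : ℝ) ≤ k := by exact_mod_cast h4
  have hk0' : (0 : ℝ) < k := by linarith
  have hL0 : 0 < L := by
    rw [hL]
    exact Real.log_pos (by linarith)
  have hexp : exp w = L := by rw [hw, Real.exp_log hL0]
  have hexpL : exp L = k := by rw [hL, Real.exp_log hk0']
  rw [hexp] at h2
  have hw0 : 0 < w := by linarith
  have hL1 : 1 ≤ L := by linarith
  have hlog2 : 0 < log 2 := Real.log_pos (by norm_num)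
  have hl1 : log 2 < 1 := by have := Real.log_two_lt_d9; linarith
  have hl2 : 1 / 2 < log 2 := by have := Real.log_two_gt_d9; linarith
  have hlw : 0 ≤ log w := Real.log_nonneg h1
  -- m
  have hLw : 8 ≤ L / w := by rw [le_div_iff₀ hw0]; exact h2
  obtain ⟨m, hm1, hm2⟩ := exists_nat_pow_near (by linarith : (1 : ℝ) ≤ L / w) (one_lt_two : (1 : ℝ) < 2)
  have hm3 : 3 ≤ m := by
    by_contra h
    have h5 : m + 1 ≤ 3 := by omega
    have h6 : (2 : ℝ) ^ (m + 1) ≤ 2 ^ 3 := pow_le_pow_right₀ (by norm_num) h5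
    norm_num at h6
    linarith
  have hlogLw : log (L / w) = w - log w := by
    rw [Real.log_div hL0.ne' hw0.ne', ← hw]
  have hmle : (m : ℝ) * log 2 ≤ w := by
    have h5 := Real.log_le_log (by positivity) hm1
    rw [Real.log_pow, hlogLw] at h5
    linarith
  have hmge : w - log w ≤ ((m : ℝ) + 1) * log 2 := by
    have h5 := Real.log_le_log (by linarith) hm2.le
    rw [Real.log_pow, hlogLw] at h5
    push_cast at h5
    exact h5
  have hm2w : (m : ℝ) ≤ 2 * w := by
    have h5 : (m : ℝ) * (1 / 2) ≤ m * log 2 := mul_le_mul_of_nonneg_left hl2.le (Nat.cast_nonneg m)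
    linarith
  have hmr : (3 : ℝ) ≤ m := by exact_mod_cast hm3
  -- Lam
  obtain ⟨Λ, hΛ⟩ : ∃ Λ : ℝ, Λ = Lam k := ⟨_, rfl⟩
  have hΛ' : Λ = L * w / log 2 := by
    rw [hΛ, hw, hL]
    rfl
  have hΛ1 : L * w ≤ Λ := by
    rw [hΛ', le_div_iff₀ hlog2]
    have : 0 ≤ L * w := by positivity
    nlinarith
  have hΛ2 : Λ ≤ 2 * (L * w) := by
    rw [hΛ', div_le_iff₀ hlog2]
    have : 0 ≤ L * w := by positivity
    nlinarith
  have hLw1 : 1 ≤ L * w := one_le_mul_of_one_le_of_one_le hL1 h1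
  have hΛ0 : 1 ≤ Λ := by linarith
  -- Y
  obtain ⟨Y, hY⟩ : ∃ Y : ℕ, Y = ⌈exp (Λ + 1)⌉₊ := ⟨_, rfl⟩
  have hY1 : exp (Λ + 1) ≤ Y := by rw [hY]; exact Nat.le_ceil _
  have hY2 : (Y : ℝ) < exp (Λ + 1) + 1 := by rw [hY]; exact Nat.ceil_lt_add_one (exp_pos _).le
  have hY3 : (3 : ℝ) ≤ Y := by
    have := Real.add_one_le_exp (Λ + 1)
    linarith
  have hY0 : (0 : ℝ) < Y := by linarith
  have hYlog : log Y ≤ 4 * (L * w) := by
    have h5 : (Y : ℝ) ≤ exp (Λ + 2) := by
      have h6 : exp (Λ + 2) = exp (Λ + 1) * exp 1 := by rw [← Real.exp_add]; congr 1; ring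
      have h7 : 1 ≤ exp (Λ + 1) := Real.one_le_exp (by linarith)
      have h8 : 2 ≤ exp 1 := by have := Real.add_one_le_exp (1 : ℝ); linarith
      have h9 : exp (Λ + 1) * 2 ≤ exp (Λ + 1) * exp 1 := mul_le_mul_of_nonneg_left h8 (by linarith)
      rw [h6]
      linarith
    have h6 := Real.log_le_log hY0 h5
    rw [Real.log_exp] at h6
    have h7 : 8 * w * w ≤ L * w := mul_le_mul_of_nonneg_right h2 hw0.le
    have h8 : 1 ≤ w * w := one_le_mul_of_one_le_of_one_le h1 h1
    linarith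
  have hYlog1 : 1 ≤ log Y := by
    have h6 := Real.log_le_log (exp_pos _) hY1
    rw [Real.log_exp] at h6
    linarith
  have hloglogY : log (log Y) ≤ 4 * w := by
    have h5 : log Y ≤ exp (4 * w) := by
      refine hYlog.trans ?_
      have h6 : exp (4 * w) = L * exp (3 * w) := by
        rw [← hexp, ← Real.exp_add]; congr 1; ring
      have h7 : 4 * w ≤ exp (3 * w) := by
        have h8 := Real.add_one_le_exp (3 * w)
        have h9 := Real.quadratic_le_exp_of_nonneg (by linarith : (0 : ℝ) ≤ 3 * w)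
        have h10 : 1 ≤ w * w := one_le_mul_of_one_le_of_one_le h1 h1
        have h11 : w ≤ w * w := le_mul_of_one_le_left hw0.le h1
        have e : (3 * w) ^ 2 / 2 = 9 / 2 * (w * w) := by ring
        rw [e] at h9
        linarith
      rw [h6]
      calc 4 * (L * w) = L * (4 * w) := by ring
        _ ≤ L * exp (3 * w) := mul_le_mul_of_nonneg_left h7 hL0.le
    have h6 := Real.log_le_log (by linarith) h5
    rwa [Real.log_exp] at h6
  refine ⟨m, Y, hm3, by exact_mod_cast hY3, ?_⟩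
  -- the second term
  obtain ⟨E, hE⟩ : ∃ E : ℝ, E = (m : ℝ) * 2 ^ m * log (16 * m) +
      2 ^ (m + 1) * (log (log Y) + C) - m * L := ⟨_, rfl⟩
  have hsecond : (16 * (m : ℝ)) ^ (m * 2 ^ m) * exp (2 ^ (m + 1) * (log (log Y) + C)) / (k : ℝ) ^ m =
      exp E := by
    have e1 : (16 * (m : ℝ)) ^ (m * 2 ^ m) = exp ((m : ℝ) * 2 ^ m * log (16 * m)) := by
      rw [← Real.exp_log (by positivity : 0 < (16 * (m : ℝ)) ^ (m * 2 ^ m)), Real.log_pow]
      push_cast
      rfl
    have e2 : (k : ℝ) ^ m = exp (m * L) := by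
      rw [← hexpL, ← Real.exp_nat_mul]
    rw [e1, e2, ← Real.exp_add, ← Real.exp_sub, hE]
  have hpow : (2 : ℝ) ^ m ≤ L / w := hm1
  have hE1 : (m : ℝ) * 2 ^ m * log (16 * m) ≤ 2 * L * (4 + log w) := by
    have h5 : log (16 * m) ≤ 4 + log w := by
      have h6 : log (16 * m) ≤ log (32 * w) := Real.log_le_log (by positivity) (by linarith)
      rw [Real.log_mul (by norm_num) hw0.ne'] at h6
      have h7 : log 32 = 5 * log 2 := by
        rw [show (32 : ℝ) = 2 ^ 5 by norm_num, Real.log_pow]; norm_num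
      have := Real.log_two_lt_d9
      linarith
    have h6 : 0 ≤ log (16 * m) := Real.log_nonneg (by linarith)
    calc (m : ℝ) * 2 ^ m * log (16 * m) ≤ (2 * w) * (L / w) * (4 + log w) := by gcongr
      _ = 2 * L * (4 + log w) := by field_simp
  have hE2 : 2 ^ (m + 1) * (log (log Y) + C) ≤ 2 * L * (4 + C) := by
    calc (2 : ℝ) ^ (m + 1) * (log (log Y) + C) ≤ 2 ^ (m + 1) * (4 * w + C * w) := by
          have hCw : C ≤ C * w := le_mul_of_one_le_right hC h1
          gcongr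
      _ = 2 * 2 ^ m * (w * (4 + C)) := by rw [pow_succ]; ring
      _ ≤ 2 * (L / w) * (w * (4 + C)) := by gcongr
      _ = 2 * L * (4 + C) := by field_simp
  have hE3 : -(m * L) ≤ -Λ + 2 * L * log w + L := by
    have h5 : (w - log w) / log 2 - 1 ≤ m := by
      rw [sub_le_iff_le_add, div_le_iff₀ hlog2]
      exact hmge
    have h6 : L * ((w - log w) / log 2 - 1) ≤ L * m := mul_le_mul_of_nonneg_left h5 hL0.le
    have h7 : L * ((w - log w) / log 2 - 1) = Λ - L * (log w / log 2) - L := by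
      rw [hΛ']; field_simp
    have h8 : log w / log 2 ≤ 2 * log w := by
      rw [div_le_iff₀ hlog2]
      nlinarith
    have h9 : L * (log w / log 2) ≤ L * (2 * log w) := mul_le_mul_of_nonneg_left h8 hL0.le
    have e9 : L * (2 * log w) = 2 * L * log w := by ring
    have e10 : L * (m : ℝ) = m * L := by ring
    linarith
  have hEtot : E ≤ -(1 - ε) * Λ - log 2 := by
    have h5 : E ≤ -Λ + L * (4 * log w + (17 + 2 * C)) := by
      have e : L * (4 * log w + (17 + 2 * C)) =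
          2 * L * (4 + log w) + 2 * L * (4 + C) + (2 * L * log w + L) := by ring
      rw [hE, e]
      linarith
    have h6 : L * (4 * log w + 18 + 2 * C) ≤ L * (ε * w) := mul_le_mul_of_nonneg_left h3 hL0.le
    have h7 : ε * (L * w) ≤ ε * Λ := mul_le_mul_of_nonneg_left hΛ1 hε.le
    have e1 : L * (4 * log w + 18 + 2 * C) = L * (4 * log w + (17 + 2 * C)) + L := by ring
    have e2 : L * (ε * w) = ε * (L * w) := by ring
    have e3 : -(1 - ε) * Λ = -Λ + ε * Λ := by ring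
    rw [e3]
    linarith
  rw [hsecond, ← hΛ]
  have hY4 : 1 / (Y : ℝ) ≤ exp (-(1 - ε) * Λ - log 2) := by
    calc 1 / (Y : ℝ) ≤ 1 / exp (Λ + 1) := one_div_le_one_div_of_le (exp_pos _) hY1
      _ = exp (-(Λ + 1)) := by rw [Real.exp_neg, one_div]
      _ ≤ _ := by
          apply Real.exp_le_exp.2
          have e3 : -(1 - ε) * Λ = -Λ + ε * Λ := by ring
          have : 0 ≤ ε * Λ := by positivity
          rw [e3]
          linarith
  have hE4 : exp E ≤ exp (-(1 - ε) * Λ - log 2) := Real.exp_le_exp.2 hEtot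
  have e4 : exp (-(1 - ε) * Λ - log 2) = exp (-(1 - ε) * Λ) / 2 := by
    rw [Real.exp_sub, Real.exp_log (by norm_num)]
  rw [e4] at hY4 hE4
  linarith

end Pool.Agent.K1H98.DK
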